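import Pool.Agent.H601.BH.Count

namespace Pool.Agent.H601.BH

open Pool.Agent.H601.BG (Adm kap rl DD RR EE Q kap_add bset card_bset card_Q Om OmU card_Om
  card_Q_le cL_ge)

theorem real_main (T cL B1 B2 U C O E u v X1 X2 X4 : ℝ)
    (hcL : 0 ≤ cL) (hB1 : 0 ≤ B1) (hB2 : 0 ≤ B2) (hU : 0 ≤ U)
    (hu : 0 ≤ u) (hv : 0 ≤ v) (hX1 : 0 ≤ X1) (hX2 : 0 ≤ X2) (hX4 : 0 ≤ X4)
    (hT : T ≤ cL * (cL * (B1 * (B1 * (B1 * (B2 * (B2 * U)))))))
    (b1 : B1 * u ≤ 2 * X1) (b2 : B2 * v ≤ 2 * X2) (b4 : cL ≤ X4)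
    (b5 : O = U * C) (b6 : u ≤ C * E) :
    T * (u * (u * (u * (v * (v * u))))) ≤ O * ((256 * (X4 * X4 * X1 * X1 * X1 * X2 * X2)) * E) := by
  have n1 : 0 ≤ B1 * u := mul_nonneg hB1 hu
  have n2 : 0 ≤ B2 * v := mul_nonneg hB2 hv
  have m1 : (B1 * u) * (B1 * u) ≤ (2 * X1) * (2 * X1) := mul_le_mul b1 b1 n1 (by positivity)
  have m1' : ((B1 * u) * (B1 * u)) * (B1 * u) ≤ ((2 * X1) * (2 * X1)) * (2 * X1) :=
    mul_le_mul m1 b1 n1 (by positivity)
  have m2 : (B2 * v) * (B2 * v) ≤ (2 * X2) * (2 * X2) := mul_le_mul b2 b2 n2 (by positivity)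
  have m3 : U * u ≤ U * (C * E) := mul_le_mul_of_nonneg_left b6 hU
  have m4 := mul_le_mul m1' m2 (mul_nonneg n2 n2) (by positivity)
  have m5 := mul_le_mul m4 m3 (mul_nonneg hU hu) (by positivity)
  have m6 : cL * cL ≤ X4 * X4 := mul_le_mul b4 b4 hcL hX4
  have n5 : 0 ≤ (B1 * u * (B1 * u) * (B1 * u) * (B2 * v * (B2 * v))) * (U * u) := by positivity
  have m7 := mul_le_mul m6 m5 n5 (by positivity)
  have n6 : 0 ≤ u * (u * (u * (v * (v * u)))) := by positivity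
  have hpos : 0 ≤ U * (C * E) := le_trans (mul_nonneg hU hu) m3
  calc T * (u * (u * (u * (v * (v * u)))))
      ≤ (cL * (cL * (B1 * (B1 * (B1 * (B2 * (B2 * U))))))) * (u * (u * (u * (v * (v * u))))) :=
        mul_le_mul_of_nonneg_right hT n6
    _ = cL * cL * ((B1 * u * (B1 * u) * (B1 * u) * (B2 * v * (B2 * v))) * (U * u)) := by ring
    _ ≤ _ := m7
    _ = 32 * ((X4 * X4 * X1 * X1 * X1 * X2 * X2) * (U * (C * E))) := by ring
    _ ≤ 256 * ((X4 * X4 * X1 * X1 * X1 * X2 * X2) * (U * (C * E))) := by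
        apply mul_le_mul_of_nonneg_right (by norm_num)
        positivity
    _ = _ := by rw [b5]; ring

theorem TT_bound (P : Par3) {J L K : ℕ} (hL0 : P.K0 ≤ L) (hLK : L < K) (hKJ : K ≤ J)
    (hd : kap L < P.τ K + P.τ L + 2) :
    ((TT P J L K).card : ℝ) * 16^K ≤ ((Q (P.τ K)).card : ℝ) * (Om J).card := by
  have h1 : ((TT P J L K).card : ℝ) ≤ ((PS P J L K).card : ℝ) :=
    Nat.cast_le.2 (card_TT_le P hL0 hLK hKJ)
  have h2 : ((PS P J L K).card : ℝ) = ((Q (P.τ L)).card : ℝ) * (((Q (P.τ L)).card : ℝ) *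
      (((bset (16^(kap L)) (16^(P.τ K + P.τ L + 2))).card : ℝ) *
      (((bset (16^(kap L)) (16^(P.τ K + P.τ L + 2))).card : ℝ) *
      (((bset (16^(kap L)) (16^(P.τ K + P.τ L + 2))).card : ℝ) *
      (((bset (16^(kap K)) (16^(P.τ K + 2 * P.τ L + 4))).card : ℝ) *
      (((bset (16^(kap K)) (16^(P.τ K + 2 * P.τ L + 4))).card : ℝ) * ((OmU L J).card : ℝ))))))) := by
    unfold PS
    rw [Finset.card_product, Finset.card_product, Finset.card_product, Finset.card_product,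
      Finset.card_product, Finset.card_product, Finset.card_product]
    rw [Nat.cast_mul, Nat.cast_mul, Nat.cast_mul, Nat.cast_mul, Nat.cast_mul, Nat.cast_mul,
      Nat.cast_mul]
  have c16 : ∀ n : ℕ, (((16:ℕ)^n : ℕ) : ℝ) = (16:ℝ)^n := by intro n; push_cast; rfl
  have b1 : ((bset (16^(kap L)) (16^(P.τ K + P.τ L + 2))).card : ℝ) * 16^(kap L)
      ≤ 2 * 16^(P.τ K + P.τ L + 2) := by
    have h := card_bset (16^(kap L)) (16^(P.τ K + P.τ L + 2)) (by positivity)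
    have h' : (((bset (16^(kap L)) (16^(P.τ K + P.τ L + 2))).card * 16^(kap L) : ℕ) : ℝ)
      ≤ ((2 * 16^(P.τ K + P.τ L + 2) : ℕ) : ℝ) := Nat.cast_le.2 h
    rw [Nat.cast_mul, Nat.cast_mul, c16, c16] at h'
    exact h'
  have b2 : ((bset (16^(kap K)) (16^(P.τ K + 2 * P.τ L + 4))).card : ℝ) * 16^(kap K)
      ≤ 2 * 16^(P.τ K + 2 * P.τ L + 4) := by
    have h := card_bset (16^(kap K)) (16^(P.τ K + 2 * P.τ L + 4)) (by positivity)
    have h' : (((bset (16^(kap K)) (16^(P.τ K + 2 * P.τ L + 4))).card * 16^(kap K) : ℕ) : ℝ)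
      ≤ ((2 * 16^(P.τ K + 2 * P.τ L + 4) : ℕ) : ℝ) := Nat.cast_le.2 h
    rw [Nat.cast_mul, Nat.cast_mul, c16, c16] at h'
    exact h'
  have b4 : ((Q (P.τ L)).card : ℝ) ≤ 16^(P.τ L + 1) := by
    have h' : ((Q (P.τ L)).card : ℝ) ≤ ((16^(P.τ L + 1) : ℕ) : ℝ) := Nat.cast_le.2 (card_Q_le (P.τ L))
    rw [c16] at h'
    exact h'
  have b5 : ((Om J).card : ℝ) = ((OmU L J).card : ℝ) *
      ((∏ i ∈ Finset.range L, (Q (i+3)).card : ℕ) : ℝ) := by
    rw [← Nat.cast_mul, ← card_Om (L := L) (J := J) (by omega)]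
  have b6 := cL_ge L
  have b7 := P.h4 K L hL0 hLK hd
  have main := real_main ((TT P J L K).card : ℝ) ((Q (P.τ L)).card : ℝ)
    _ _ _ _ _ (EE L : ℝ) (16^(kap L)) (16^(kap K)) _ _ _
    (Nat.cast_nonneg _) (Nat.cast_nonneg _) (Nat.cast_nonneg _)
    (Nat.cast_nonneg _) (by positivity) (by positivity)
    (by positivity) (by positivity) (by positivity)
    (h1.trans (le_of_eq h2)) b1 b2 b4 b5 b6
  have hL1 : (16:ℝ)^(kap L) * (16^(kap L) * (16^(kap L) * (16^(kap K) * (16^(kap K) * 16^(kap L)))))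
      = (16:ℝ)^(2 * kap K + 4 * kap L) := by
    rw [← pow_add, ← pow_add, ← pow_add, ← pow_add, ← pow_add]
    congr 1; omega
  have hL2 : 256 * ((16:ℝ)^(P.τ L + 1) * 16^(P.τ L + 1) * 16^(P.τ K + P.τ L + 2) *
            16^(P.τ K + P.τ L + 2) * 16^(P.τ K + P.τ L + 2) * 16^(P.τ K + 2 * P.τ L + 4) *
            16^(P.τ K + 2 * P.τ L + 4))
      = (16:ℝ)^(5 * P.τ K + 9 * P.τ L + 18) := by
    rw [← pow_add, ← pow_add, ← pow_add, ← pow_add, ← pow_add, ← pow_add,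
      show (256:ℝ) = 16^2 by norm_num, ← pow_add]
    congr 1; omega
  rw [hL1, hL2] at main
  have hE : 0 < (EE L : ℝ) := by
    have : 0 < EE L := Finset.prod_pos (fun i _ => by omega)
    exact_mod_cast this
  have hT : (0:ℝ) ≤ ((TT P J L K).card : ℝ) := Nat.cast_nonneg _
  have h5 := le_trans (mul_le_mul_of_nonneg_left b7 hT) main
  -- compare with the number of primes
  have hK0 : P.K0 ≤ K := by omega
  have hτ := P.h2 K hK0
  have hτp : (0:ℝ) < (P.τ K : ℝ) := by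
    have : 0 < P.τ K := by omega
    exact_mod_cast this
  have hcQ := card_Q (P.τ K) (by omega)
  rw [div_le_iff₀ hτp] at hcQ
  have h6 : (((TT P J L K).card : ℝ) * 16^K) *
        ((16:ℝ)^(4 * P.τ K + 9 * P.τ L + 18) * EE L * P.τ K)
      ≤ ((Q (P.τ K)).card : ℝ) * (Om J).card *
        ((16:ℝ)^(4 * P.τ K + 9 * P.τ L + 18) * EE L * P.τ K) := by
    have e1 : (((TT P J L K).card : ℝ) * 16^K) *
        ((16:ℝ)^(4 * P.τ K + 9 * P.τ L + 18) * EE L * P.τ K)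
        = ((TT P J L K).card : ℝ) * (16^(4 * P.τ K + 9 * P.τ L + 18 + K) * EE L * P.τ K) := by
      rw [pow_add (16:ℝ) (4 * P.τ K + 9 * P.τ L + 18) K]; ring
    have e2 : ((Om J).card : ℝ) * ((16:ℝ)^(5 * P.τ K + 9 * P.τ L + 18) * EE L)
        = 16^(P.τ K) * ((Om J).card * ((16:ℝ)^(4 * P.τ K + 9 * P.τ L + 18) * EE L)) := by
      have : (16:ℝ)^(5 * P.τ K + 9 * P.τ L + 18)
          = 16^(P.τ K) * 16^(4 * P.τ K + 9 * P.τ L + 18) := by
        rw [← pow_add]; congr 1; omega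
      rw [this]; ring
    rw [e1]
    refine h5.trans ?_
    rw [e2]
    calc (16:ℝ)^(P.τ K) * ((Om J).card * ((16:ℝ)^(4 * P.τ K + 9 * P.τ L + 18) * EE L))
        ≤ (((Q (P.τ K)).card : ℝ) * P.τ K) *
          ((Om J).card * ((16:ℝ)^(4 * P.τ K + 9 * P.τ L + 18) * EE L)) :=
          mul_le_mul_of_nonneg_right hcQ (by positivity)
      _ = _ := by ring
  exact le_of_mul_le_mul_right h6 (by positivity)

end Pool.Agent.H601.BH
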