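import Pool.Agent.H601.BH.Setup

namespace Pool.Agent.H601.BH

open Pool.Agent.H601.BG (Adm kap rl DD RR EE Q lg mem_Q Q_disj kap_add DD_mul kap_mono DD_ge RR_ge
  DD_pos RR_pos bset mem_bset card_bset Cd card_Q q0 ex ex_lt Om OmU up ex_adm up_mem card_Om
  DD_inj fm fk card_Q_le cL_ge Q_card_pos)

/-- The range of the tuples. -/
noncomputable def Tup (a b : ℕ) : Finset ((ℕ × ℕ × ℕ × ℕ) × (ℕ × ℕ × ℕ × ℕ)) :=
  (Q a ×ˢ Q a ×ˢ Q a ×ˢ Q a) ×ˢ (Q b ×ˢ Q b ×ˢ Q b ×ˢ Q b)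

/-- The condition on tuples. -/
def CdT (q : ℕ → ℕ) (L K : ℕ) (t : (ℕ × ℕ × ℕ × ℕ) × (ℕ × ℕ × ℕ × ℕ)) : Prop :=
  Cd3 q L K t.1.1 t.1.2.1 t.1.2.2.1 t.1.2.2.2 t.2.1 t.2.2.1 t.2.2.2.1 t.2.2.2.2

open Classical in
/-- All bad configurations over all finite sequences. -/
noncomputable def TT (P : Par3) (J L K : ℕ) :
    Finset ((Fin J → ℕ) × ((ℕ × ℕ × ℕ × ℕ) × (ℕ × ℕ × ℕ × ℕ))) :=
  (Om J ×ˢ Tup (P.τ K) (P.τ L)).filter (fun z => CdT (ex J z.1) L K z.2)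

/-- The parametrisation. -/
noncomputable def Phi (J L K : ℕ) (z : (Fin J → ℕ) × ((ℕ × ℕ × ℕ × ℕ) × (ℕ × ℕ × ℕ × ℕ))) :
    ℕ × ℕ × ℤ × ℤ × ℤ × ℤ × ℤ × (Fin J → ℕ) :=
  (z.2.2.1, z.2.2.2.1,
    fm (ex J z.1) L z.2.1.2.1 z.2.2.2.1 z.2.1.1 z.2.2.1,
    fm (ex J z.1) L z.2.1.2.2.1 z.2.2.2.2.1 z.2.1.1 z.2.2.1,
    fm (ex J z.1) L z.2.1.2.2.2 z.2.2.2.2.2 z.2.1.1 z.2.2.1,
    fk (ex J z.1) L K z.2.1.1 z.2.1.2.1 z.2.1.2.2.1 z.2.2.1 z.2.2.2.1 z.2.2.2.2.1,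
    fk (ex J z.1) L K z.2.1.1 z.2.1.2.1 z.2.1.2.2.2 z.2.2.1 z.2.2.2.1 z.2.2.2.2.2,
    up L z.1)

/-- The range of the parametrisation. -/
noncomputable def PS (P : Par3) (J L K : ℕ) :
    Finset (ℕ × ℕ × ℤ × ℤ × ℤ × ℤ × ℤ × (Fin J → ℕ)) :=
  Q (P.τ L) ×ˢ Q (P.τ L) ×ˢ bset (16^(kap L)) (16^(P.τ K + P.τ L + 2)) ×ˢ
    bset (16^(kap L)) (16^(P.τ K + P.τ L + 2)) ×ˢ
    bset (16^(kap L)) (16^(P.τ K + P.τ L + 2)) ×ˢ
    bset (16^(kap K)) (16^(P.τ K + 2 * P.τ L + 4)) ×ˢ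
    bset (16^(kap K)) (16^(P.τ K + 2 * P.τ L + 4)) ×ˢ OmU L J

theorem bset_bound {A B : ℕ} {m : ℤ} (h : m ∈ bset A B) : m ≠ 0 ∧ |m| * (A:ℤ) ≤ B := by
  rw [bset, Finset.mem_filter] at h
  refine ⟨h.2.1, ?_⟩
  have := h.2.2
  zify at this
  exact this

/-- `κ` is smaller than the primes of the lower scale. -/
theorem kappa_lt (P : Par3) {K L : ℕ} (hL0 : P.K0 ≤ L) (hLK : L < K) {κ : ℤ}
    (h : κ ∈ bset (16^(kap K)) (16^(P.τ K + 2 * P.τ L + 4))) : |κ| ≤ 16^(P.τ L) := by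
  have h1 := (bset_bound h).2
  push_cast at h1
  have h3 := P.h3 K (by omega)
  have hm := P.mono K L hL0 hLK
  have h4 : |κ| * (16:ℤ)^(P.τ K + P.τ L + 4) ≤ 16^(P.τ L) * 16^(P.τ K + P.τ L + 4) := by
    calc |κ| * (16:ℤ)^(P.τ K + P.τ L + 4) ≤ |κ| * (16:ℤ)^(kap K) := by
          gcongr
          · norm_num
          · omega
      _ ≤ 16^(P.τ K + 2 * P.τ L + 4) := h1
      _ = _ := by rw [← pow_add]; congr 1; omega
  exact le_of_mul_le_mul_right h4 (by positivity)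

theorem rl_pos {L K : ℕ} (h : L < K) : 3 ≤ rl L K := by
  unfold rl
  have : L + 3 ≤ ∑ i ∈ Finset.Ico L K, (i+3) :=
    Finset.single_le_sum (f := fun i => i + 3) (fun i _ => Nat.zero_le _)
      (Finset.mem_Ico.2 ⟨le_rfl, h⟩)
  omega

/-- The parameter `s1` is smaller than the primes of the upper scale. -/
theorem s_lt (P : Par3) {K L : ℕ} (hLK : L < K) {s : ℤ}
    (h : s ∈ bset (16^(rl L K)) (16^(P.τ K + 1))) : |s| ≤ 16^(P.τ K) := by
  have h1 := (bset_bound h).2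
  push_cast at h1
  have h2 := rl_pos hLK
  have h4 : |s| * (16:ℤ)^1 ≤ 16^(P.τ K) * 16^1 := by
    calc |s| * (16:ℤ)^1 ≤ |s| * (16:ℤ)^(rl L K) := by
          gcongr
          · norm_num
          · omega
      _ ≤ 16^(P.τ K + 1) := h1
      _ = _ := by rw [← pow_add]
  exact le_of_mul_le_mul_right h4 (by positivity)

theorem delta_lt (P : Par3) {K L : ℕ} (hL0 : P.K0 ≤ L) (hLK : L < K) {s s' x x' y y' : ℤ}
    (h : s ∈ bset (16^(rl L K)) (16^(P.τ K + 1))) (h' : s' ∈ bset (16^(rl L K)) (16^(P.τ K + 1)))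
    (hx0 : 0 ≤ x) (hx0' : 0 ≤ x') (hx : x ≤ 16^(P.τ K + 1)) (hx' : x' ≤ 16^(P.τ K + 1))
    (hy : 16^(P.τ L) < y) (hy' : 16^(P.τ L) < y') : |x * s' - x' * s| < y * y' := by
  have h1 := (bset_bound h).2
  have h1' := (bset_bound h').2
  push_cast at h1 h1'
  have h5 := P.h5 K L hL0 hLK
  have a1 : |x * s' - x' * s| * (16:ℤ)^(rl L K) ≤ 2 * (16^(P.τ K + 1) * 16^(P.τ K + 1)) := by
    calc |x * s' - x' * s| * (16:ℤ)^(rl L K) ≤ (|x * s'| + |x' * s|) * (16:ℤ)^(rl L K) := by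
          gcongr
          exact abs_sub _ _
      _ = x * (|s'| * (16:ℤ)^(rl L K)) + x' * (|s| * (16:ℤ)^(rl L K)) := by
          rw [abs_mul, abs_mul, abs_of_nonneg hx0, abs_of_nonneg hx0']; ring
      _ ≤ 16^(P.τ K + 1) * 16^(P.τ K + 1) + 16^(P.τ K + 1) * 16^(P.τ K + 1) := by
          gcongr
      _ = _ := by ring
  have a2 : 2 * ((16:ℤ)^(P.τ K + 1) * 16^(P.τ K + 1)) < (16^(P.τ L) * 16^(P.τ L)) * 16^(rl L K) := by
    calc 2 * ((16:ℤ)^(P.τ K + 1) * 16^(P.τ K + 1)) < 16 * ((16:ℤ)^(P.τ K + 1) * 16^(P.τ K + 1)) := by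
          have : (0:ℤ) < (16:ℤ)^(P.τ K + 1) * 16^(P.τ K + 1) := by positivity
          linarith
      _ = 16^(2 * P.τ K + 3) := by rw [← pow_add, ← pow_succ']; congr 1; omega
      _ ≤ 16^(2 * P.τ L + rl L K) := pow_le_pow_right₀ (by norm_num) h5
      _ = _ := by rw [← pow_add, ← pow_add]; congr 1; omega
  have a3 : |x * s' - x' * s| < 16^(P.τ L) * 16^(P.τ L) :=
    lt_of_mul_lt_mul_right (lt_of_le_of_lt a1 a2) (by positivity)
  have a4 : (16:ℤ)^(P.τ L) * 16^(P.τ L) ≤ y * y' := by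
    apply mul_le_mul hy.le hy'.le (by positivity)
    exact le_trans (by positivity) hy.le
  linarith

theorem card_TT_le (P : Par3) {J L K : ℕ} (hL0 : P.K0 ≤ L) (hLK : L < K) (hKJ : K ≤ J) :
    (TT P J L K).card ≤ (PS P J L K).card := by
  classical
  refine Finset.card_le_card_of_injOn (Phi J L K) ?_ ?_
  · rintro ⟨f, ⟨x0, x1, x2, x3⟩, y0, y1, y2, y3⟩ hz
    rw [Finset.mem_coe, TT, Finset.mem_filter, Finset.mem_product] at hz
    obtain ⟨⟨hf, ht⟩, hc⟩ := hz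
    simp only [Tup, Finset.mem_product] at ht
    obtain ⟨⟨hx0, hx1, hx2, hx3⟩, hy0, hy1, hy2, hy3⟩ := ht
    obtain ⟨hc2, hc3, _, _⟩ := hc
    have hq := ex_adm hf
    obtain ⟨m1, m2, κ, s1, s2, e1, e2, e3, e4, e5, e6, e7, e8, e9, e10, e11, e12, e13, e14⟩ :=
      params P.toBase hq hL0 hLK hx0 hx1 hx2 hy0 hy1 hy2 hc2
    obtain ⟨m1', m3, κ', s1', s3, e1', e2', e3', e4', e5', e6', e7', e8', e9', e10', e11', e12',
      e13', e14'⟩ := params P.toBase hq hL0 hLK hx0 hx1 hx3 hy0 hy1 hy3 hc3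
    have hD : (DD (ex J f) L : ℤ) ≠ 0 := by exact_mod_cast (DD_pos hq L).ne'
    have hR : (RR (ex J f) L K : ℤ) ≠ 0 := by exact_mod_cast (RR_pos hq L K).ne'
    have g1 : fm (ex J f) L x1 y1 x0 y0 = m1 := by
      unfold fm; rw [e1, Int.mul_ediv_cancel _ hD]
    have g2 : fm (ex J f) L x2 y2 x0 y0 = m2 := by
      unfold fm; rw [e2, Int.mul_ediv_cancel _ hD]
    have g3 : fk (ex J f) L K x0 x1 x2 y0 y1 y2 = κ := by
      unfold fk; rw [g1, g2, e5, Int.mul_ediv_cancel _ hR]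
    have g1' : fm (ex J f) L x1 y1 x0 y0 = m1' := by
      unfold fm; rw [e1', Int.mul_ediv_cancel _ hD]
    have g2' : fm (ex J f) L x3 y3 x0 y0 = m3 := by
      unfold fm; rw [e2', Int.mul_ediv_cancel _ hD]
    have g3' : fk (ex J f) L K x0 x1 x3 y0 y1 y3 = κ' := by
      unfold fk; rw [g1', g2', e5', Int.mul_ediv_cancel _ hR]
    rw [Finset.mem_coe]
    simp only [PS, Phi, Finset.mem_product]
    refine ⟨hy0, hy1, ?_, ?_, ?_, ?_, ?_, up_mem hf⟩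
    · rw [g1]; exact e11
    · rw [g2]; exact e12
    · rw [g2']; exact e12'
    · rw [g3]; exact e13
    · rw [g3']; exact e13'
  · rintro ⟨f, ⟨x0, x1, x2, x3⟩, y0, y1, y2, y3⟩ hz ⟨f', ⟨x0', x1', x2', x3'⟩, y0', y1', y2', y3'⟩ hz' he
    rw [Finset.mem_coe, TT, Finset.mem_filter, Finset.mem_product] at hz hz'
    obtain ⟨⟨hf, ht⟩, hc⟩ := hz
    obtain ⟨⟨hf', ht'⟩, hc'⟩ := hz'
    simp only [Tup, Finset.mem_product] at ht ht'
    obtain ⟨⟨hx0, hx1, hx2, hx3⟩, hy0, hy1, hy2, hy3⟩ := ht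
    obtain ⟨⟨hx0', hx1', hx2', hx3'⟩, hy0', hy1', hy2', hy3'⟩ := ht'
    obtain ⟨hc2, hc3, hn1, hn2⟩ := hc
    obtain ⟨hc2', hc3', hn1', hn2'⟩ := hc'
    have hq := ex_adm hf
    have hq' := ex_adm hf'
    simp only [Phi, Prod.mk.injEq] at he
    obtain ⟨i1, i2, i3, i4, i4b, i5, i5b, i7⟩ := he
    subst i1
    subst i2
    obtain ⟨m1, m2, κ2, s1, s2, e1, e2, e3, e4, e5, e6, e7, e8, e9, e10, e11, e12, e13, e14⟩ :=
      params P.toBase hq hL0 hLK hx0 hx1 hx2 hy0 hy1 hy2 hc2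
    obtain ⟨n1, m3, κ3, t1, s3, a1, a2, a3, a4, a5, a6, a7, a8, a9, a10, a11, a12, a13, a14⟩ :=
      params P.toBase hq hL0 hLK hx0 hx1 hx3 hy0 hy1 hy3 hc3
    obtain ⟨m1', m2', κ2', s1', s2', e1', e2', e3', e4', e5', e6', e7', e8', e9', e10', e11',
      e12', e13', e14'⟩ := params P.toBase hq' hL0 hLK hx0' hx1' hx2' hy0 hy1 hy2' hc2'
    obtain ⟨n1', m3', κ3', t1', s3', a1', a2', a3', a4', a5', a6', a7', a8', a9', a10', a11',
      a12', a13', a14'⟩ := params P.toBase hq' hL0 hLK hx0' hx1' hx3' hy0 hy1 hy3' hc3'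
    have hD : (DD (ex J f) L : ℤ) ≠ 0 := by exact_mod_cast (DD_pos hq L).ne'
    have hR : (RR (ex J f) L K : ℤ) ≠ 0 := by exact_mod_cast (RR_pos hq L K).ne'
    have hD' : (DD (ex J f') L : ℤ) ≠ 0 := by exact_mod_cast (DD_pos hq' L).ne'
    have hR' : (RR (ex J f') L K : ℤ) ≠ 0 := by exact_mod_cast (RR_pos hq' L K).ne'
    -- identify the duplicated parameters
    have u1 : n1 = m1 := mul_right_cancel₀ hD (a1.symm.trans e1)
    subst u1
    have u2 : t1 = s1 := mul_right_cancel₀ hR (a3.symm.trans e3)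
    subst u2
    have u1' : n1' = m1' := mul_right_cancel₀ hD' (a1'.symm.trans e1')
    subst u1'
    have u2' : t1' = s1' := mul_right_cancel₀ hR' (a3'.symm.trans e3')
    subst u2'
    have g1 : fm (ex J f) L x1 y1 x0 y0 = n1 := by
      unfold fm; rw [e1, Int.mul_ediv_cancel _ hD]
    have g2 : fm (ex J f) L x2 y2 x0 y0 = m2 := by
      unfold fm; rw [e2, Int.mul_ediv_cancel _ hD]
    have g2b : fm (ex J f) L x3 y3 x0 y0 = m3 := by
      unfold fm; rw [a2, Int.mul_ediv_cancel _ hD]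
    have g3 : fk (ex J f) L K x0 x1 x2 y0 y1 y2 = κ2 := by
      unfold fk; rw [g1, g2, e5, Int.mul_ediv_cancel _ hR]
    have g3b : fk (ex J f) L K x0 x1 x3 y0 y1 y3 = κ3 := by
      unfold fk; rw [g1, g2b, a5, Int.mul_ediv_cancel _ hR]
    have g1' : fm (ex J f') L x1' y1 x0' y0 = n1' := by
      unfold fm; rw [e1', Int.mul_ediv_cancel _ hD']
    have g2' : fm (ex J f') L x2' y2' x0' y0 = m2' := by
      unfold fm; rw [e2', Int.mul_ediv_cancel _ hD']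
    have g2b' : fm (ex J f') L x3' y3' x0' y0 = m3' := by
      unfold fm; rw [a2', Int.mul_ediv_cancel _ hD']
    have g3' : fk (ex J f') L K x0' x1' x2' y0 y1 y2' = κ2' := by
      unfold fk; rw [g1', g2', e5', Int.mul_ediv_cancel _ hR']
    have g3b' : fk (ex J f') L K x0' x1' x3' y0 y1 y3' = κ3' := by
      unfold fk; rw [g1', g2b', a5', Int.mul_ediv_cancel _ hR']
    rw [g1, g1'] at i3
    rw [g2, g2'] at i4
    rw [g2b, g2b'] at i4b
    rw [g3, g3'] at i5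
    rw [g3b, g3b'] at i5b
    have i3s := i3.symm
    have i4s := i4.symm
    have i4bs := i4b.symm
    have i5s := i5.symm
    have i5bs := i5b.symm
    subst i3s
    subst i4s
    subst i4bs
    subst i5s
    subst i5bs
    have hup : ∀ i : Fin J, L ≤ (i:ℕ) → f i = f' i := by
      intro i hi
      have h1 := congrFun i7 i
      have h2 : ¬ ((i:ℕ) < L) := by omega
      simp only [up, h2, if_false] at h1
      exact h1
    have hRR : RR (ex J f') L K = RR (ex J f) L K := by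
      unfold RR
      refine Finset.prod_congr rfl (fun i hi => ?_)
      rw [Finset.mem_Ico] at hi
      rw [ex_lt f (by omega : i < J), ex_lt f' (by omega : i < J)]
      exact (hup ⟨i, by omega⟩ hi.1).symm
    rw [hRR] at e3' e4' e5' a4' a5'
    obtain ⟨px0, gx0, lx0⟩ := mem_Q hx0
    obtain ⟨px0', gx0', lx0'⟩ := mem_Q hx0'
    obtain ⟨py2, gy2, _⟩ := mem_Q hy2
    obtain ⟨py3, gy3, _⟩ := mem_Q hy3
    have zy2 : (16:ℤ)^(P.τ L) < y2 := by exact_mod_cast gy2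
    have zy3 : (16:ℤ)^(P.τ L) < y3 := by exact_mod_cast gy3
    -- the primes y2, y3
    have hy2e : (y2:ℤ) = y2' := by
      have h2 : n1' * (y2:ℤ) = n1' * y2' := by linarith
      exact mul_left_cancel₀ e7 h2
    have hy3e : (y3:ℤ) = y3' := by
      have h2 : n1' * (y3:ℤ) = n1' * y3' := by linarith
      exact mul_left_cancel₀ e7 h2
    have hy2n : y2 = y2' := by exact_mod_cast hy2e
    have hy3n : y3 = y3' := by exact_mod_cast hy3e
    subst hy2n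
    subst hy3n
    -- the lattice argument
    have hx0z : (0:ℤ) ≤ x0 := by positivity
    have hx0z' : (0:ℤ) ≤ x0' := by positivity
    have hdel := delta_lt P hL0 hLK e14 e14' hx0z hx0z'
      (by exact_mod_cast lx0) (by exact_mod_cast lx0') zy2 zy3
    have hlat := lattice x0 x0' _ _ s2 s2' s3 s3' _ m2' m3' _ _ y1 y2 y3
      (Nat.prime_iff_prime_int.1 py2) (Nat.prime_iff_prime_int.1 py3)
      (fun hd => hn2 ((Nat.prime_dvd_prime_iff_eq py3 py2).1 (by exact_mod_cast hd)).symm)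
      (bset_bound e13).1 (bset_bound a13).1
      (lt_of_le_of_lt (kappa_lt P hL0 hLK e13) zy2)
      (lt_of_le_of_lt (kappa_lt P hL0 hLK a13) zy3)
      e6 a6 e6' a6' hdel
    have hx0e : (x0:ℤ) = x0' := by
      have hd : (x0:ℤ) ∣ (x0':ℤ) * _ := ⟨_, hlat.symm⟩
      rcases (Nat.prime_iff_prime_int.1 px0).dvd_or_dvd hd with h | h
      · have h' : x0 ∣ x0' := by exact_mod_cast h
        have := (Nat.prime_dvd_prime_iff_eq px0 px0').1 h'
        rw [this]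
      · exfalso
        have h3 := Int.le_of_dvd (abs_pos.2 (bset_bound e14).1) ((dvd_abs _ _).2 h)
        have h4 := s_lt P hLK e14
        have h5 : (16:ℤ)^(P.τ K) < x0 := by exact_mod_cast gx0
        linarith
    have hx0n : x0 = x0' := by exact_mod_cast hx0e
    subst hx0n
    have hx0ne : (x0:ℤ) ≠ 0 := by exact_mod_cast px0.ne_zero
    have hs1 := mul_left_cancel₀ hx0ne hlat
    rw [hs1] at e3'
    have hx1e : (x1:ℤ) = x1' := by linarith
    have hx1n : x1 = x1' := by exact_mod_cast hx1e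
    subst hx1n
    have hDD : (DD (ex J f) L : ℤ) = DD (ex J f') L := by
      have h2 : n1' * (DD (ex J f) L : ℤ) = n1' * (DD (ex J f') L : ℤ) := by
        rw [← e1, ← e1']
      exact mul_left_cancel₀ e7 h2
    have hDn : DD (ex J f) L = DD (ex J f') L := by exact_mod_cast hDD
    have hfe : f = f' := by
      funext i
      by_cases hi : (i:ℕ) < L
      · have h1 := DD_inj hq hq' hDn i hi
        rw [ex_lt f i.2, ex_lt f' i.2] at h1
        exact h1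
      · exact hup i (by omega)
    have hy2ne : (y2:ℤ) ≠ 0 := by exact_mod_cast py2.ne_zero
    have hy3ne : (y3:ℤ) ≠ 0 := by exact_mod_cast py3.ne_zero
    have hx2e : (x2:ℤ) = x2' := by
      rw [← hDD] at e2'
      have h2 : (x2:ℤ) * y2 = x2' * y2 := by linarith
      exact mul_right_cancel₀ hy2ne h2
    have hx3e : (x3:ℤ) = x3' := by
      rw [← hDD] at a2'
      have h2 : (x3:ℤ) * y3 = x3' * y3 := by linarith
      exact mul_right_cancel₀ hy3ne h2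
    have hx2n : x2 = x2' := by exact_mod_cast hx2e
    have hx3n : x3 = x3' := by exact_mod_cast hx3e
    rw [hfe, hx2n, hx3n]

end Pool.Agent.H601.BH
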