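import Pool.Agent.H601.BH.Core
import Pool.Agent.H601.BG.Param

open Real Filter

namespace Pool.Agent.H601.BH

open Pool.Agent.H601.BG (kap rl EE Q card_Q Rep kap_add kap_real EE_le sqrt_succ_le hh exists_scale)

/-- The exponent. -/
noncomputable def cc : ℝ := (√11 - 1) / 5

theorem sqrt11_lo : (3.316:ℝ) < √11 := by
  rw [show (3.316:ℝ) = √(3.316^2) from (Real.sqrt_sq (by norm_num)).symm]
  exact Real.sqrt_lt_sqrt (by norm_num) (by norm_num)

theorem sqrt11_hi : √11 < (3.317:ℝ) := by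
  rw [show (3.317:ℝ) = √(3.317^2) from (Real.sqrt_sq (by norm_num)).symm]
  exact Real.sqrt_lt_sqrt (by norm_num) (by norm_num)

theorem cc_lo : (0.4632:ℝ) < cc := by unfold cc; linarith [sqrt11_lo]

theorem cc_hi : cc < (0.4634:ℝ) := by unfold cc; linarith [sqrt11_hi]

theorem cc_eq : 5 * cc^2 + 2 * cc - 2 = 0 := by
  unfold cc
  have h : √11 ^ 2 = 11 := Real.sq_sqrt (by norm_num)
  linear_combination h / 5

/-- The real size exponents. -/
noncomputable def phi (K : ℕ) : ℝ := cc * kap K - K * √K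

theorem phi_succ (K : ℕ) (hK : 100 ≤ K) : phi K + 1 ≤ phi (K+1) := by
  unfold phi
  rw [kap_real, kap_real]
  push_cast
  have h0 : (100:ℝ) ≤ K := by exact_mod_cast hK
  have h1 := sqrt_succ_le K (by omega)
  have h2 : √(K:ℝ) ^ 2 = K := Real.sq_sqrt (by positivity)
  have h3 : (10:ℝ) ≤ √K := by
    rw [show (10:ℝ) = √(10^2) from (Real.sqrt_sq (by norm_num)).symm]
    exact Real.sqrt_le_sqrt (by linarith)
  have h4 : ((K:ℝ) + 1) * √((K:ℝ)+1) ≤ ((K:ℝ)+1) * (√K + 1 / (2 * √K)) := by gcongr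
  have h5 : ((K:ℝ)+1) * (√K + 1 / (2 * √K)) = K * √K + √K + √K / 2 + 1 / (2 * √K) := by
    have h6 : √(K:ℝ) ≠ 0 := by positivity
    have e1 : (K:ℝ) * (1 / (2 * √K)) = √K / 2 := by
      nth_rw 1 [← h2]
      field_simp
    rw [mul_add, add_mul, add_mul, e1]
    ring
  have h6 : 1 / (2 * √(K:ℝ)) ≤ 1 := by
    rw [div_le_one (by positivity)]
    linarith
  have h7 := cc_lo
  have h8 : √(K:ℝ) * 10 ≤ K := by nlinarith
  nlinarith

theorem phi_mono {K L : ℕ} (hL : 100 ≤ L) (h : L < K) : phi L + 1 ≤ phi K := by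
  induction K with
  | zero => omega
  | succ n ih =>
    rcases Nat.lt_or_ge L n with h1 | h1
    · have h2 := ih h1
      have h3 := phi_succ n (by omega)
      linarith
    · have : L = n := by omega
      rw [this]
      exact phi_succ n (by omega)

theorem phi_lo (K : ℕ) (hK : 100 ≤ K) : (K:ℝ) + 4 ≤ phi K := by
  unfold phi
  rw [kap_real]
  have h0 : (100:ℝ) ≤ K := by exact_mod_cast hK
  have h2 : √(K:ℝ) ^ 2 = K := Real.sq_sqrt (by positivity)
  have h3 : (10:ℝ) ≤ √K := by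
    rw [show (10:ℝ) = √(10^2) from (Real.sqrt_sq (by norm_num)).symm]
    exact Real.sqrt_le_sqrt (by linarith)
  have h8 : √(K:ℝ) * 10 ≤ K := by nlinarith
  have h7 := cc_lo
  have h9 : (K:ℝ) * (√K * 10) ≤ K * K := mul_le_mul_of_nonneg_left h8 (by positivity)
  have h10 : 0.4632 * ((K:ℝ) * (K + 5) / 2) ≤ cc * (K * (K + 5) / 2) :=
    mul_le_mul_of_nonneg_right h7.le (by positivity)
  have h11 : (100:ℝ) * K ≤ K * K := mul_le_mul_of_nonneg_right h0 (by positivity)
  linarith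

theorem phi_hi (K : ℕ) (hK : 100 ≤ K) : 2 * phi K + 3 ≤ kap K := by
  unfold phi
  have h0 : (100:ℝ) ≤ K := by exact_mod_cast hK
  have h3 : (10:ℝ) ≤ √K := by
    rw [show (10:ℝ) = √(10^2) from (Real.sqrt_sq (by norm_num)).symm]
    exact Real.sqrt_le_sqrt (by linarith)
  have h7 := cc_hi
  have h8 : (0:ℝ) ≤ kap K := by positivity
  nlinarith

/-- The integer size exponents. -/
noncomputable def tau (K : ℕ) : ℕ := ⌊phi K⌋₊

theorem tau_le (K : ℕ) (hK : 100 ≤ K) : (tau K : ℝ) ≤ phi K :=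
  Nat.floor_le (by have := phi_lo K hK; have : (0:ℝ) ≤ K := by positivity
                   linarith)

theorem lt_tau (K : ℕ) : phi K < tau K + 1 := Nat.lt_floor_add_one _

theorem tau_h4 (K L : ℕ) (hL : 100 ≤ L) (hLK : L < K) (hd : kap L < tau K + tau L + 2) :
    (16:ℝ)^(4 * tau K + 9 * tau L + 18 + K) * EE L * tau K ≤ 16^(2 * kap K + 4 * kap L) := by
  have hK : 100 ≤ K := by omega
  have hd' : (kap L : ℝ) < tau K + tau L + 2 := by exact_mod_cast hd
  have a1 := tau_le K hK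
  have a2 := tau_le L hL
  have a3 : phi K = cc * kap K - K * √K := rfl
  have a4 : phi L = cc * kap L - L * √L := rfl
  have c1 := cc_lo
  have c2 := cc_hi
  have c3 := cc_eq
  have h0 : (100:ℝ) ≤ K := by exact_mod_cast hK
  have g1 : (10:ℝ) ≤ √K := by
    rw [show (10:ℝ) = √(10^2) from (Real.sqrt_sq (by norm_num)).symm]
    exact Real.sqrt_le_sqrt (by linarith)
  have g2 : (10:ℝ) * K ≤ K * √K := by nlinarith
  have g3 : (0:ℝ) ≤ L * √L := by positivity
  have k1 : (0:ℝ) ≤ kap K := by positivity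
  have k2 : (0:ℝ) ≤ kap L := by positivity
  have b1 : (1 - cc) * kap L ≤ cc * kap K + 2 := by nlinarith
  have b2 : (1 - cc) * ((4 * cc - 2) * kap K + (9 * cc - 4) * kap L) ≤ 0.35 := by
    have b3 : (9 * cc - 4) * ((1 - cc) * kap L) ≤ (9 * cc - 4) * (cc * kap K + 2) := by
      refine mul_le_mul_of_nonneg_left b1 (by linarith)
    have b4 : (1 - cc) * ((4 * cc - 2) * kap K) + (9 * cc - 4) * (cc * kap K)
        = (5 * cc^2 + 2 * cc - 2) * kap K := by ring
    rw [c3, zero_mul] at b4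
    nlinarith
  have b5 : (4 * cc - 2) * kap K + (9 * cc - 4) * kap L ≤ 1 := by
    by_contra hcon
    push Not at hcon
    have : (0.53:ℝ) * 1 < (1 - cc) * ((4 * cc - 2) * kap K + (9 * cc - 4) * kap L) := by
      apply mul_lt_mul'' (by linarith) hcon (by norm_num) (by norm_num)
    linarith
  have main : 4 * (tau K : ℝ) + 9 * tau L + 18 + K + L * √L + K ≤ 2 * kap K + 4 * kap L := by
    nlinarith
  have hτK : (tau K : ℝ) ≤ (16:ℝ)^(K:ℝ) := by
    have h3 : (tau K : ℝ) ≤ kap K := by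
      have := phi_hi K hK
      have : (0:ℝ) ≤ phi K := by linarith [phi_lo K hK]
      linarith
    refine h3.trans ?_
    rw [Real.rpow_natCast]
    have h4 : ∀ n : ℕ, kap n ≤ 16^n := by
      intro n
      induction n with
      | zero => simp [kap]
      | succ m ih =>
        have e : kap (m+1) = kap m + (m + 3) := by unfold kap; rw [Finset.sum_range_succ]
        have h5 : m < 16^m := Nat.lt_pow_self (by norm_num)
        rw [e, pow_succ]
        omega
    exact_mod_cast h4 K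
  have hE := EE_le L
  calc (16:ℝ)^(4 * tau K + 9 * tau L + 18 + K) * EE L * tau K
      ≤ (16:ℝ)^(4 * tau K + 9 * tau L + 18 + K) * (16:ℝ)^((L:ℝ) * √L) * (16:ℝ)^(K:ℝ) := by
        gcongr
    _ = (16:ℝ)^(((4 * tau K + 9 * tau L + 18 + K : ℕ) : ℝ) + (L:ℝ) * √L + K) := by
        rw [Real.rpow_add (by norm_num), Real.rpow_add (by norm_num),
          Real.rpow_natCast (16:ℝ) (4 * tau K + 9 * tau L + 18 + K)]
    _ ≤ (16:ℝ)^((2 * kap K + 4 * kap L : ℕ) : ℝ) := by
        apply Real.rpow_le_rpow_of_exponent_le (by norm_num)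
        push_cast
        exact main
    _ = _ := by rw [Real.rpow_natCast]

theorem tau_h5 (K L : ℕ) (hL : 100 ≤ L) (hLK : L < K) : 2 * tau K + 3 ≤ 2 * tau L + rl L K := by
  have hK : 100 ≤ K := by omega
  have a1 := tau_le K hK
  have a2 := lt_tau L
  have a3 : phi K = cc * kap K - K * √K := rfl
  have a4 : phi L = cc * kap L - L * √L := rfl
  have c1 := cc_lo
  have c2 := cc_hi
  have e : kap L + rl L K = kap K := kap_add hLK.le
  have e' : (kap L : ℝ) + rl L K = kap K := by exact_mod_cast e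
  have h1 : (K:ℝ) + 2 ≤ rl L K := by
    have h2 : K - 1 + 3 ≤ rl L K := by
      unfold rl
      exact Finset.single_le_sum (f := fun i => i + 3) (fun i _ => Nat.zero_le _)
        (Finset.mem_Ico.2 ⟨by omega, by omega⟩)
    have h3 : K + 2 ≤ rl L K := by omega
    exact_mod_cast h3
  have h0 : (100:ℝ) ≤ K := by exact_mod_cast hK
  have h2 : (L:ℝ) * √L ≤ K * √K := by
    have : (L:ℝ) ≤ K := by exact_mod_cast hLK.le
    gcongr
  have h3 : 2 * (tau K : ℝ) + 3 ≤ 2 * tau L + rl L K := by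
    have h4 : (1 - 2 * cc) * (rl L K : ℝ) ≥ 0.0732 * (rl L K : ℝ) := by
      apply mul_le_mul_of_nonneg_right (by linarith) (by positivity)
    have h5 : cc * (kap K : ℝ) = cc * kap L + cc * rl L K := by rw [← e']; ring
    nlinarith
  exact_mod_cast h3

/-- The parameters. -/
noncomputable def PP : Par3 where
  τ := tau
  K0 := 100
  K0pos := by norm_num
  mono := by
    intro K L hL hLK
    have h1 := phi_mono hL hLK
    have h2 := tau_le L hL
    have h3 := lt_tau K
    have : (tau L : ℝ) < tau K := by linarith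
    exact_mod_cast this
  h2 := by
    intro K hK
    have h1 := phi_lo K hK
    have h3 := lt_tau K
    have : ((K + 3 : ℕ) : ℝ) < tau K + 1 := by push_cast; linarith
    have h4 : K + 3 < tau K + 1 := by exact_mod_cast this
    omega
  h3 := by
    intro K hK
    have h1 := phi_hi K hK
    have h2 := tau_le K hK
    have : ((2 * tau K + 3 : ℕ) : ℝ) ≤ kap K := by push_cast; linarith
    exact_mod_cast this
  h5 := tau_h5
  h4 := tau_h4

theorem growth (A : Set ℕ) (hA : ∀ K, 100 ≤ K → ∀ N, 16^(kap K + 2 * K) ≤ N →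
      (Q (tau K)).card ≤ 2 * (A ∩ Set.Icc 1 N).ncard) (ε : ℝ) (hε : 0 < ε) :
    ∀ᶠ N : ℕ in atTop, (N:ℝ)^(cc - ε) ≤ ((A ∩ Set.Icc 1 N).ncard : ℝ) := by
  obtain ⟨δ, hδ0, hδ1, hδ2⟩ : ∃ δ : ℝ, 0 < δ ∧ δ ≤ ε ∧ δ ≤ 0.1 :=
    ⟨min ε 0.1, lt_min hε (by norm_num), min_le_left _ _, min_le_right _ _⟩
  obtain ⟨K1, hK1⟩ := exists_nat_ge ((14/δ)^2)
  have hmain : ∀ N, hh (max 100 K1) ≤ N → (N:ℝ)^(cc - ε) ≤ ((A ∩ Set.Icc 1 N).ncard : ℝ) := by
    intro N hN
    obtain ⟨K, hK, hl, hu⟩ := exists_scale _ N hN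
    have hK100 : 100 ≤ K := (le_max_left _ _).trans hK
    have hKK1 : K1 ≤ K := (le_max_right _ _).trans hK
    have h1 := hA K hK100 N hl
    have hN1 : 1 ≤ N := by
      have : 1 ≤ hh K := Nat.one_le_pow _ _ (by norm_num)
      omega
    have hN1' : (1:ℝ) ≤ N := by exact_mod_cast hN1
    have c1 := cc_lo
    have c2 := cc_hi
    have h0 : (100:ℝ) ≤ K := by exact_mod_cast hK100
    have hsq : √(K:ℝ) ^ 2 = K := Real.sq_sqrt (by positivity)
    have hs1 : (1:ℝ) ≤ √K := by
      rw [Real.one_le_sqrt]; linarith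
    have hs2 : 14/δ ≤ √K := by
      apply Real.le_sqrt_of_sq_le
      have : (K1:ℝ) ≤ K := by exact_mod_cast hKK1
      linarith
    have hs3 : 14 ≤ δ * √K := by
      rw [div_le_iff₀ hδ0] at hs2
      linarith
    have hτ1 := lt_tau K
    have hτ2 := tau_le K hK100
    have hτ3 := phi_hi K hK100
    have hphi : phi K = cc * kap K - K * √K := rfl
    have hkap := kap_real K
    -- upper bound for N
    have hNu : (N:ℝ) ≤ (16:ℝ)^((kap K : ℝ) + 3 * K + 5) := by
      have h2 : (N:ℝ) ≤ ((hh (K+1) : ℕ) : ℝ) := by exact_mod_cast hu.le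
      refine h2.trans (le_of_eq ?_)
      unfold hh
      have e : kap (K+1) + 2 * (K+1) = kap K + 3 * K + 5 := by
        unfold kap; rw [Finset.sum_range_succ]; ring
      rw [e]
      have e2 : (kap K : ℝ) + 3 * K + 5 = ((kap K + 3 * K + 5 : ℕ) : ℝ) := by push_cast; ring
      rw [e2, Real.rpow_natCast]
      push_cast
      ring
    have hstep1 : (N:ℝ)^(cc - ε) ≤ (16:ℝ)^(((kap K : ℝ) + 3 * K + 5) * (cc - δ)) := by
      calc (N:ℝ)^(cc - ε) ≤ (N:ℝ)^(cc - δ) :=
            Real.rpow_le_rpow_of_exponent_le hN1' (by linarith)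
        _ ≤ ((16:ℝ)^((kap K : ℝ) + 3 * K + 5))^(cc - δ) :=
            Real.rpow_le_rpow (by positivity) hNu (by linarith)
        _ = _ := by rw [← Real.rpow_mul (by norm_num)]
    have hcardQ := card_Q (tau K) (by
      have := phi_lo K hK100
      have h5 : (3:ℝ) < tau K + 1 := by linarith
      have : 3 < tau K + 1 := by exact_mod_cast h5
      omega)
    have hτpos : (0:ℝ) < tau K := by
      have := phi_lo K hK100
      linarith
    have h2τ : 2 * (tau K : ℝ) ≤ (16:ℝ)^(K:ℝ) := by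
      have h3 : 2 * (tau K : ℝ) ≤ kap K := by linarith
      refine h3.trans ?_
      rw [Real.rpow_natCast]
      have h4 : ∀ n : ℕ, kap n ≤ 16^n := by
        intro n
        induction n with
        | zero => simp [kap]
        | succ m ih =>
          have e : kap (m+1) = kap m + (m + 3) := by unfold kap; rw [Finset.sum_range_succ]
          have h5 : m < 16^m := Nat.lt_pow_self (by norm_num)
          rw [e, pow_succ]
          omega
      exact_mod_cast h4 K
    have hstep2 : (16:ℝ)^((tau K : ℝ) - K) ≤ ((A ∩ Set.Icc 1 N).ncard : ℝ) := by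
      have h3 : ((Q (tau K)).card : ℝ) ≤ 2 * ((A ∩ Set.Icc 1 N).ncard : ℝ) := by exact_mod_cast h1
      rw [Real.rpow_sub (by norm_num), div_le_iff₀ (by positivity), Real.rpow_natCast]
      rw [div_le_iff₀ hτpos] at hcardQ
      calc (16:ℝ)^(tau K) ≤ ((Q (tau K)).card : ℝ) * tau K := hcardQ
        _ ≤ (2 * ((A ∩ Set.Icc 1 N).ncard : ℝ)) * tau K := by gcongr
        _ = ((A ∩ Set.Icc 1 N).ncard : ℝ) * (2 * tau K) := by ring
        _ ≤ _ := by gcongr
    refine hstep1.trans (le_trans ?_ hstep2)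
    apply Real.rpow_le_rpow_of_exponent_le (by norm_num)
    -- exponent inequality
    have hk1 : (K:ℝ)^2 / 2 ≤ kap K := by rw [hkap]; nlinarith
    have hk2 : 7 * (K:ℝ) * √K ≤ δ * kap K := by
      have h3 : δ * ((K:ℝ)^2/2) ≤ δ * kap K := by gcongr
      have h4 : (K:ℝ)^2 = K * √K * √K := by rw [mul_assoc, ← sq, hsq]; ring
      have h5 : 7 * (K:ℝ) * √K ≤ δ * ((K:ℝ)^2/2) := by
        rw [h4]
        have h6 : 14 * (K * √K) ≤ (δ * √K) * (K * √K) := by
          apply mul_le_mul_of_nonneg_right hs3 (by positivity)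
        nlinarith
      linarith
    have hk3 : (K:ℝ) ≤ K * √K := by nlinarith
    have hk4 : δ * (3 * (K:ℝ) + 5) ≥ 0 := by positivity
    have e1 : ((kap K : ℝ) + 3 * K + 5) * (cc - δ)
      = cc * kap K + cc * (3 * K + 5) - δ * kap K - δ * (3 * K + 5) := by ring
    rw [e1]
    have hk5 : cc * (3 * (K:ℝ) + 5) ≤ 0.4634 * (3 * K + 5) := by
      apply mul_le_mul_of_nonneg_right c2.le (by positivity)
    nlinarith
  filter_upwards [eventually_ge_atTop (hh (max 100 K1))] with N hN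
  exact hmain N hN

/-- Main theorem of this file. -/
theorem main : ∃ A : Set ℕ, (∀ a ∈ A, 0 < a) ∧ (∀ n, (Rep A n).ncard ≤ 3) ∧
    ∀ ε : ℝ, 0 < ε → ∀ᶠ N : ℕ in atTop, (N:ℝ)^((√11 - 1) / 5 - ε) ≤ ((A ∩ Set.Icc 1 N).ncard : ℝ) := by
  obtain ⟨A, h1, h2, h3⟩ := core PP
  exact ⟨A, h1, h2, fun ε hε => growth A h3 ε hε⟩

end Pool.Agent.H601.BH
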